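import Mathlib

/-! Elementary one-variable comparison lemmas used in the analysis of the shell system. -/

open Set

namespace Pool.Agent.H402V3

theorem mono_of_deriv {f f' : ℝ → ℝ} {α β : ℝ}
    (hf : ∀ t ∈ Icc α β, HasDerivWithinAt f (f' t) (Icc α β) t)
    (h0 : ∀ t ∈ Icc α β, 0 ≤ f' t) : MonotoneOn f (Icc α β) := by
  refine monotoneOn_of_deriv_nonneg (convex_Icc α β) (fun t ht => (hf t ht).continuousWithinAt) ?_ ?_
  · intro t ht
    have ht' := interior_subset ht
    exact ((hf t ht').mono interior_subset).differentiableWithinAt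
  · intro t ht
    have ht' := interior_subset ht
    have hn : Icc α β ∈ nhds t := mem_interior_iff_mem_nhds.mp ht
    rw [((hf t ht').hasDerivAt hn).deriv]
    exact h0 t ht'

theorem anti_of_deriv {f f' : ℝ → ℝ} {α β : ℝ}
    (hf : ∀ t ∈ Icc α β, HasDerivWithinAt f (f' t) (Icc α β) t)
    (h0 : ∀ t ∈ Icc α β, f' t ≤ 0) : AntitoneOn f (Icc α β) := by
  have h1 : MonotoneOn (fun t => - f t) (Icc α β) :=
    mono_of_deriv (f' := fun t => - f' t) (fun t ht => (hf t ht).neg)
      (fun t ht => by have := h0 t ht; show 0 ≤ - f' t; linarith)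
  intro x hx y hy hxy
  have := h1 hx hy hxy
  simp only at this
  linarith

/-- Gronwall, upper bound. -/
theorem gronwall_upper {f f' Γ γ : ℝ → ℝ} {α β B h : ℝ} (hh : 0 ≤ h)
    (hf : ∀ t ∈ Icc α β, HasDerivWithinAt f (f' t) (Icc α β) t)
    (hΓ : ∀ t ∈ Icc α β, HasDerivWithinAt Γ (γ t) (Icc α β) t)
    (hle : ∀ t ∈ Icc α β, f' t ≤ γ t * f t + h)
    (hinc : ∀ s ∈ Icc α β, ∀ t ∈ Icc α β, s ≤ t → Γ t - Γ s ≤ B)
    {t : ℝ} (ht : t ∈ Icc α β) (hfα : 0 ≤ f α) :
    f t ≤ (f α + h * (t - α)) * Real.exp B := by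
  have hαβ : α ≤ β := ht.1.trans ht.2
  have hsub : Icc α t ⊆ Icc α β := Icc_subset_Icc le_rfl ht.2
  -- the function s ↦ f s * exp (-Γ s) - h * exp (B - Γ t) * (s - α) is antitone on [α, t]
  have hanti : AntitoneOn (fun s => f s * Real.exp (-Γ s) - h * Real.exp (B - Γ t) * (s - α))
      (Icc α t) := by
    refine anti_of_deriv (f' := fun s => (f' s * Real.exp (-Γ s)
      + f s * (Real.exp (-Γ s) * (-γ s))) - h * Real.exp (B - Γ t)) ?_ ?_
    · intro s hs
      have h1 := (hf s (hsub hs)).mono hsub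
      have h2 := ((hΓ s (hsub hs)).mono hsub).neg.exp
      have h3 := h1.mul h2
      have h4 : HasDerivWithinAt (fun s : ℝ => h * Real.exp (B - Γ t) * (s - α))
          (h * Real.exp (B - Γ t)) (Icc α t) s := by
        have := ((hasDerivWithinAt_id s (Icc α t)).sub_const α).const_mul (h * Real.exp (B - Γ t))
        simpa using this
      exact h3.sub h4
    · intro s hs
      have h1 := hle s (hsub hs)
      have h2 := hinc s (hsub hs) t ht hs.2
      have h3 : Real.exp (-Γ s) ≤ Real.exp (B - Γ t) := Real.exp_le_exp.mpr (by linarith)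
      have h4 : 0 < Real.exp (-Γ s) := Real.exp_pos _
      have h5 : (f' s - γ s * f s) * Real.exp (-Γ s) ≤ h * Real.exp (-Γ s) :=
        mul_le_mul_of_nonneg_right (by linarith) h4.le
      have h6 : h * Real.exp (-Γ s) ≤ h * Real.exp (B - Γ t) := mul_le_mul_of_nonneg_left h3 hh
      nlinarith
  have h1 := hanti (left_mem_Icc.mpr ht.1) (right_mem_Icc.mpr ht.1) ht.1
  simp only [sub_self, mul_zero, sub_zero] at h1
  -- f t * exp (-Γ t) ≤ f α exp (-Γ α) + h exp (B - Γ t) (t - α)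
  have h2 : f t * Real.exp (-Γ t) ≤ f α * Real.exp (-Γ α)
      + h * Real.exp (B - Γ t) * (t - α) := by linarith
  have h3 : f t ≤ (f α * Real.exp (-Γ α) + h * Real.exp (B - Γ t) * (t - α)) * Real.exp (Γ t) := by
    have := mul_le_mul_of_nonneg_right h2 (Real.exp_pos (Γ t)).le
    rwa [mul_assoc, ← Real.exp_add, neg_add_cancel, Real.exp_zero, mul_one] at this
  refine h3.trans ?_
  rw [add_mul, mul_assoc, ← Real.exp_add]
  have h4 : h * Real.exp (B - Γ t) * (t - α) * Real.exp (Γ t) = h * (t - α) * Real.exp B := by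
    rw [show h * Real.exp (B - Γ t) * (t - α) * Real.exp (Γ t)
      = h * (t - α) * (Real.exp (B - Γ t) * Real.exp (Γ t)) by ring, ← Real.exp_add]
    congr 2; ring
  rw [h4, add_mul]
  have h5 : Real.exp (-Γ α + Γ t) ≤ Real.exp B := Real.exp_le_exp.mpr (by
    have := hinc α (left_mem_Icc.mpr hαβ) t ht ht.1
    linarith)
  have := mul_le_mul_of_nonneg_left h5 hfα
  linarith

/-- Gronwall, nonnegativity. -/
theorem gronwall_nonneg {f f' Γ γ : ℝ → ℝ} {α β : ℝ}
    (hf : ∀ t ∈ Icc α β, HasDerivWithinAt f (f' t) (Icc α β) t)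
    (hΓ : ∀ t ∈ Icc α β, HasDerivWithinAt Γ (γ t) (Icc α β) t)
    (hle : ∀ t ∈ Icc α β, γ t * f t ≤ f' t)
    {t : ℝ} (ht : t ∈ Icc α β) (hfα : 0 ≤ f α) : 0 ≤ f t := by
  have hmono : MonotoneOn (fun s => f s * Real.exp (-Γ s)) (Icc α β) := by
    refine mono_of_deriv (f' := fun s => (f' s * Real.exp (-Γ s)
      + f s * (Real.exp (-Γ s) * (-γ s)))) ?_ ?_
    · intro s hs
      exact (hf s hs).mul (hΓ s hs).neg.exp
    · intro s hs
      have h1 := hle s hs
      have h4 : 0 < Real.exp (-Γ s) := Real.exp_pos _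
      have h5 : 0 ≤ (f' s - γ s * f s) * Real.exp (-Γ s) := mul_nonneg (by linarith) h4.le
      linarith
  have h1 := hmono (left_mem_Icc.mpr (ht.1.trans ht.2)) ht ht.1
  simp only at h1
  have h2 : 0 ≤ f t * Real.exp (-Γ t) := le_trans (mul_nonneg hfα (Real.exp_pos _).le) h1
  exact nonneg_of_mul_nonneg_left h2 (Real.exp_pos _)

/-- Lower bound by seeds: a source `h` acting on the window `[α, t₁]` is amplified by at least
`exp B` until time `β`. -/
theorem gronwall_seed {f f' Γ γ : ℝ → ℝ} {α β t₁ B h : ℝ} (hh : 0 ≤ h) (h1 : t₁ ∈ Icc α β)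
    (hf : ∀ t ∈ Icc α β, HasDerivWithinAt f (f' t) (Icc α β) t)
    (hΓ : ∀ t ∈ Icc α β, HasDerivWithinAt Γ (γ t) (Icc α β) t)
    (hle : ∀ t ∈ Icc α β, γ t * f t + h ≤ f' t)
    (hinc : ∀ s ∈ Icc α t₁, B ≤ Γ β - Γ s) (hfα : 0 ≤ f α) :
    h * (t₁ - α) * Real.exp B ≤ f β := by
  have hαβ : α ≤ β := h1.1.trans h1.2
  have hsub : Icc α t₁ ⊆ Icc α β := Icc_subset_Icc le_rfl h1.2
  have hmono : MonotoneOn (fun s => f s * Real.exp (-Γ s)) (Icc α β) := by
    refine mono_of_deriv (f' := fun s => (f' s * Real.exp (-Γ s)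
      + f s * (Real.exp (-Γ s) * (-γ s)))) ?_ ?_
    · intro s hs
      exact (hf s hs).mul (hΓ s hs).neg.exp
    · intro s hs
      have h1 := hle s hs
      have h4 : 0 < Real.exp (-Γ s) := Real.exp_pos _
      have h5 : 0 ≤ (f' s - γ s * f s) * Real.exp (-Γ s) := mul_nonneg (by linarith) h4.le
      linarith
  have hmono2 : MonotoneOn (fun s => f s * Real.exp (-Γ s) - h * Real.exp (B - Γ β) * (s - α))
      (Icc α t₁) := by
    refine mono_of_deriv (f' := fun s => (f' s * Real.exp (-Γ s)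
      + f s * (Real.exp (-Γ s) * (-γ s))) - h * Real.exp (B - Γ β)) ?_ ?_
    · intro s hs
      have h1 := (hf s (hsub hs)).mono hsub
      have h2 := ((hΓ s (hsub hs)).mono hsub).neg.exp
      have h3 := h1.mul h2
      have h4 : HasDerivWithinAt (fun s : ℝ => h * Real.exp (B - Γ β) * (s - α))
          (h * Real.exp (B - Γ β)) (Icc α t₁) s := by
        have := ((hasDerivWithinAt_id s (Icc α t₁)).sub_const α).const_mul (h * Real.exp (B - Γ β))
        simpa using this
      exact h3.sub h4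
    · intro s hs
      have h1 := hle s (hsub hs)
      have h2 := hinc s hs
      have h3 : Real.exp (B - Γ β) ≤ Real.exp (-Γ s) := Real.exp_le_exp.mpr (by linarith)
      have h4 : 0 < Real.exp (-Γ s) := Real.exp_pos _
      have h5 : h * Real.exp (-Γ s) ≤ (f' s - γ s * f s) * Real.exp (-Γ s) :=
        mul_le_mul_of_nonneg_right (by linarith) h4.le
      have h6 : h * Real.exp (B - Γ β) ≤ h * Real.exp (-Γ s) := mul_le_mul_of_nonneg_left h3 hh
      nlinarith
  have h2 := hmono2 (left_mem_Icc.mpr h1.1) (right_mem_Icc.mpr h1.1) h1.1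
  simp only [sub_self, mul_zero, sub_zero] at h2
  have h3 := hmono h1 (right_mem_Icc.mpr hαβ) h1.2
  simp only at h3
  have h4 : 0 ≤ f α * Real.exp (-Γ α) := mul_nonneg hfα (Real.exp_pos _).le
  have h5 : h * Real.exp (B - Γ β) * (t₁ - α) ≤ f β * Real.exp (-Γ β) := by linarith
  have h6 := mul_le_mul_of_nonneg_right h5 (Real.exp_pos (Γ β)).le
  rw [mul_assoc (f β), ← Real.exp_add, neg_add_cancel, Real.exp_zero, mul_one] at h6
  refine le_trans (le_of_eq ?_) h6
  rw [show h * Real.exp (B - Γ β) * (t₁ - α) * Real.exp (Γ β)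
      = h * (t₁ - α) * (Real.exp (B - Γ β) * Real.exp (Γ β)) by ring, ← Real.exp_add]
  congr 2; ring

/-- exponential growth -/
theorem exp_growth {f f' : ℝ → ℝ} {α β ρ h : ℝ}
    (hf : ∀ t ∈ Icc α β, HasDerivWithinAt f (f' t) (Icc α β) t)
    (hle : ∀ t ∈ Icc α β, ρ * (f t - h) ≤ f' t) {t : ℝ} (ht : t ∈ Icc α β) :
    (f α - h) * Real.exp (ρ * (t - α)) ≤ f t - h := by
  have hmono : MonotoneOn (fun s => (f s - h) * Real.exp (-(ρ * (s - α)))) (Icc α β) := by
    refine mono_of_deriv (f' := fun s => (f' s * Real.exp (-(ρ * (s - α)))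
      + (f s - h) * (Real.exp (-(ρ * (s - α))) * (-ρ)))) ?_ ?_
    · intro s hs
      have h1 := (hf s hs).sub_const h
      have h2 : HasDerivWithinAt (fun s : ℝ => -(ρ * (s - α))) (-ρ) (Icc α β) s := by
        have := (((hasDerivWithinAt_id s (Icc α β)).sub_const α).const_mul ρ).neg
        rw [mul_one] at this
        exact this
      exact h1.mul h2.exp
    · intro s hs
      have h1 := hle s hs
      have h4 : 0 < Real.exp (-(ρ * (s - α))) := Real.exp_pos _
      have h5 : 0 ≤ (f' s - ρ * (f s - h)) * Real.exp (-(ρ * (s - α))) :=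
        mul_nonneg (by linarith) h4.le
      linarith
  have h1 := hmono (left_mem_Icc.mpr (ht.1.trans ht.2)) ht ht.1
  simp only [sub_self, mul_zero, neg_zero, Real.exp_zero, mul_one] at h1
  have h2 := mul_le_mul_of_nonneg_right h1 (Real.exp_pos (ρ * (t - α))).le
  rwa [mul_assoc (f t - h), ← Real.exp_add, neg_add_cancel, Real.exp_zero, mul_one] at h2

/-- mean value bound, upper -/
theorem le_of_deriv_le {f f' g g' : ℝ → ℝ} {α β : ℝ}
    (hf : ∀ t ∈ Icc α β, HasDerivWithinAt f (f' t) (Icc α β) t)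
    (hg : ∀ t ∈ Icc α β, HasDerivWithinAt g (g' t) (Icc α β) t)
    (hle : ∀ t ∈ Icc α β, f' t ≤ g' t) {s t : ℝ} (hs : s ∈ Icc α β) (ht : t ∈ Icc α β)
    (hst : s ≤ t) : f t - f s ≤ g t - g s := by
  have h := mono_of_deriv (f := fun t => g t - f t) (f' := fun t => g' t - f' t)
    (fun t ht => (hg t ht).sub (hf t ht)) (fun t ht => by
      have := hle t ht; show 0 ≤ g' t - f' t; linarith)
  have := h hs ht hst
  simp only at this
  linarith

theorem hasDerivWithinAt_linear (c α : ℝ) (s : Set ℝ) (t : ℝ) :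
    HasDerivWithinAt (fun x : ℝ => c * (x - α)) c s t := by
  have := ((hasDerivWithinAt_id t s).sub_const α).const_mul c
  simpa using this

/-- A primitive of a function continuous on `[0, T]`. -/
theorem exists_primitive {f : ℝ → ℝ} {T : ℝ} (hT : 0 ≤ T) (hf : ContinuousOn f (Icc 0 T)) :
    ∃ F : ℝ → ℝ, F 0 = 0 ∧ ∀ t ∈ Icc 0 T, HasDerivWithinAt F (f t) (Icc 0 T) t := by
  let g : ℝ → ℝ := IccExtend hT (fun x => f x)
  have hg : Continuous g := by
    apply Continuous.Icc_extend'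
    exact continuousOn_iff_continuous_domRestrict.mp hf
  refine ⟨fun t => ∫ x in (0 : ℝ)..t, g x, by simp, fun t ht => ?_⟩
  have h1 := intervalIntegral.integral_hasDerivAt_right (hg.intervalIntegrable 0 t)
    (hg.stronglyMeasurableAtFilter _ _) hg.continuousAt
  have h2 : g t = f t := by
    simp only [g]
    rw [IccExtend_of_mem hT _ ht]
  rw [h2] at h1
  exact h1.hasDerivWithinAt

end Pool.Agent.H402V3
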