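import Mathlib
import Pool.Agent.H402V3.Shell

/-! One stage of the cascade. -/

open Set Finset

namespace Pool.Agent.H402V3

/-- thresholds -/
noncomputable def δ (g : ℕ → ℝ) (n : ℕ) : ℝ := 1 / (128 * g n)

/-- durations -/
noncomputable def D (g Λ r : ℕ → ℝ) (n : ℕ) : ℝ := 4 * Λ n / (g n * r n)

structure Par (g μ slo shi κh η Q Λ r : ℕ → ℝ) (R T : ℝ) : Prop where
  μ_mono : ∀ n, μ n ≤ μ (n + 1)
  shi_nonneg : ∀ n, 0 ≤ shi n
  κh_nonneg : ∀ n, 0 ≤ κh n
  Λ_ge : ∀ n, 1 ≤ Λ n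
  r_pos : ∀ n, 0 < r n
  r_le : ∀ n, r n ≤ 1
  r_succ : ∀ n, r (n + 1) = r n / 64
  Q_nonneg : ∀ n, 0 ≤ Q n
  Q_succ : ∀ n, Q n + g (n + 1) / g n * (12 * R * Λ n / r n + 1 / 128) ≤ Q (n + 1)
  sumg : ∀ n, ∑ m ∈ range (n + 1), g m ≤ 2 * g n
  gmono : ∀ n, g n ≤ g (n + 1)
  c1 : ∀ n, 64 * R * Λ n * (w g R n + μ (n + 1)) ≤ g n * r n ^ 2
  c2a : ∀ n, D g Λ r n * shi n ≤ r n / 16
  c2a' : ∀ n, D g Λ r n * shi (n + 1) ≤ r n / 16
  c2b : ∀ n, g n * D g Λ r n * (κh (n + 1) + 2 * δ g (n + 1) ^ 2) ≤ r n / 16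
  c4 : ∀ n, Λ n / 16 ≤ g (n + 1) * r n
  c4' : ∀ n, δ g n ≤ r n / 16
  c5 : ∀ n, 2 * R < δ g n * Real.exp (2 * Λ n)
  c3a : ∀ n, κh (n + 2) ≤ δ g (n + 1) ^ 2 / 2
  c3b : ∀ n, 2 * η (n + 2) * Real.exp (2 * (Q (n + 1) + 1 / 128 * (g (n + 2) / g (n + 1))))
    ≤ δ g (n + 1) ^ 2 / 2
  c3c : ∀ n, 2 * η (n + 2) * Real.exp (2 * (Q (n + 1) + 1 / 128 * (g (n + 2) / g (n + 1))))
    ≤ slo (n + 2) / (2 * g (n + 2))
  hη : ∀ n K, ∑ l ∈ Ico (n + 1) (K + 1), (2 * R * shi l + 4 * κh l * w g R l) ≤ η n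
  hη' : ∀ n K, ∑ l ∈ Ico (n + 1) (K + 1), κh l ≤ η n
  c6 : ∀ n, shi (n + 2) * Real.exp (Q n + 8 * R * Λ n / r n
    + g (n + 1) / g n * (1 / 128 + 1 / 32)) < δ g (n + 1)
  c7 : ∀ n, δ g (n + 1) < slo (n + 2) / 2 * (1 / (8 * (g n * R)))
    * Real.exp (g (n + 1) / g n / 8 - μ (n + 2) * D g Λ r n)
  c9 : ∀ n, ∑ k ∈ range n, D g Λ r k ≤ T

variable {g μ slo shi κh η Q Λ r : ℕ → ℝ} {R T : ℝ} {a e σ κ : ℕ → ℝ → ℝ}

theorem δ_pos (S : Shell g μ slo shi κh R T a e σ κ) (n : ℕ) : 0 < δ g n := by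
  have := S.g_pos n
  unfold δ
  positivity

/-- continuity argument: the last time up to which four closed conditions hold. -/
theorem last_time {t0 tE : ℝ} (h0E : t0 ≤ tE) {F G H I : ℝ → ℝ}
    (hF : ContinuousOn F (Icc t0 tE)) (hG : ContinuousOn G (Icc t0 tE))
    (hH : ContinuousOn H (Icc t0 tE)) (hI : ContinuousOn I (Icc t0 tE))
    (h0 : 0 ≤ F t0 ∧ 0 ≤ G t0 ∧ 0 ≤ H t0 ∧ 0 ≤ I t0) :
    ∃ t2 ∈ Icc t0 tE, (∀ s ∈ Icc t0 t2, 0 ≤ F s ∧ 0 ≤ G s ∧ 0 ≤ H s ∧ 0 ≤ I s) ∧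
      (t2 < tE → (F t2 = 0 ∨ G t2 = 0 ∨ H t2 = 0 ∨ I t2 = 0)) := by
  let M : ℝ → ℝ := fun t => min (min (F t) (G t)) (min (H t) (I t))
  have hM : ContinuousOn M (Icc t0 tE) :=
    ContinuousOn.inf (ContinuousOn.inf hF hG) (ContinuousOn.inf hH hI)
  have hMiff : ∀ s, 0 ≤ M s ↔ (0 ≤ F s ∧ 0 ≤ G s ∧ 0 ≤ H s ∧ 0 ≤ I s) := by
    intro s
    simp only [M, le_min_iff]
    tauto
  let Sset : Set ℝ := {t | t ∈ Icc t0 tE ∧ ∀ s ∈ Icc t0 t, 0 ≤ M s}
  have ht0S : t0 ∈ Sset := ⟨left_mem_Icc.mpr h0E, fun s hs => by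
    have : s = t0 := le_antisymm hs.2 hs.1
    rw [this, hMiff]; exact h0⟩
  have hbdd : BddAbove Sset := ⟨tE, fun t ht => ht.1.2⟩
  have hne : Sset.Nonempty := ⟨t0, ht0S⟩
  set t2 := sSup Sset with ht2
  have ht02 : t0 ≤ t2 := le_csSup hbdd ht0S
  have ht2E : t2 ≤ tE := csSup_le hne fun t ht => ht.1.2
  have ht2I : t2 ∈ Icc t0 tE := ⟨ht02, ht2E⟩
  have hlt : ∀ s ∈ Ico t0 t2, 0 ≤ M s := by
    intro s hs
    obtain ⟨t, ht, hst⟩ := exists_lt_of_lt_csSup hne hs.2
    exact ht.2 s ⟨hs.1, hst.le⟩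
  have hM2 : 0 ≤ M t2 := by
    rcases eq_or_lt_of_le ht02 with h | h
    · rw [← h, hMiff]; exact h0
    · have hcl : t2 ∈ closure (Ico t0 t2) := by
        rw [closure_Ico h.ne]; exact right_mem_Icc.mpr ht02
      have hnb : (nhdsWithin t2 (Ico t0 t2)).NeBot := mem_closure_iff_nhdsWithin_neBot.mp hcl
      have h1 : ContinuousWithinAt M (Ico t0 t2) t2 :=
        (hM t2 ht2I).mono (fun s hs => ⟨hs.1, hs.2.le.trans ht2E⟩)
      have h2 : ∀ᶠ s in nhdsWithin t2 (Ico t0 t2), s ∈ Ico t0 t2 := self_mem_nhdsWithin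
      exact ge_of_tendsto h1.tendsto (h2.mono fun s hs => hlt s hs)
  have hall : ∀ s ∈ Icc t0 t2, 0 ≤ M s := by
    intro s hs
    rcases eq_or_lt_of_le hs.2 with h | h
    · rw [h]; exact hM2
    · exact hlt s ⟨hs.1, h⟩
  refine ⟨t2, ht2I, fun s hs => (hMiff s).mp (hall s hs), fun hlt2 => ?_⟩
  by_contra hcon
  push Not at hcon
  obtain ⟨c1, c2, c3, c4⟩ := hcon
  have hpos := (hMiff t2).mp hM2
  have hM2' : 0 < M t2 := by
    simp only [M, lt_min_iff]
    exact ⟨⟨lt_of_le_of_ne hpos.1 (Ne.symm c1), lt_of_le_of_ne hpos.2.1 (Ne.symm c2)⟩,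
      ⟨lt_of_le_of_ne hpos.2.2.1 (Ne.symm c3), lt_of_le_of_ne hpos.2.2.2 (Ne.symm c4)⟩⟩
  have hev : ∀ᶠ s in nhdsWithin t2 (Icc t0 tE), 0 < M s :=
    (hM t2 ht2I).eventually (lt_mem_nhds hM2')
  rw [eventually_nhdsWithin_iff, Metric.eventually_nhds_iff] at hev
  obtain ⟨ε, hε, hball⟩ := hev
  set t3 := min tE (t2 + ε / 2) with ht3
  have ht3gt : t2 < t3 := lt_min hlt2 (by linarith)
  have ht3S : t3 ∈ Sset := by
    refine ⟨⟨ht02.trans ht3gt.le, min_le_left _ _⟩, fun s hs => ?_⟩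
    rcases le_or_gt s t2 with h | h
    · exact hall s ⟨hs.1, h⟩
    · refine (hball ?_ ⟨hs.1, hs.2.trans (min_le_left _ _)⟩).le
      rw [Real.dist_eq, abs_of_pos (by linarith)]
      have := hs.2.trans (min_le_right _ _)
      linarith
  have := le_csSup hbdd ht3S
  linarith


theorem stage (S : Shell g μ slo shi κh R T a e σ κ) (Pr : Par g μ slo shi κh η Q Λ r R T)
    {A P : ℕ → ℝ → ℝ}
    (hA : ∀ n, ∀ t ∈ Icc 0 T, HasDerivWithinAt (A n) (a n t) (Icc 0 T) t)
    (hP0 : ∀ n, P n 0 = 0)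
    (hP : ∀ n, ∀ t ∈ Icc 0 T, HasDerivWithinAt (P n) (max (a n t) 0) (Icc 0 T) t)
    (hz : ∀ n, 2 ≤ n → a n 0 = 0)
    {n : ℕ} {t0 : ℝ} (ht0 : t0 ∈ Icc 0 T) (hD : t0 + D g Λ r n ≤ T)
    (hx : r n ≤ a n t0) (hy : a (n + 1) t0 = δ g n)
    (hy' : ∀ s ∈ Icc 0 t0, a (n + 1) s ≤ δ g n)
    (hQ : ∑ m ∈ range (n + 1), g m * P m t0 ≤ Q n) :
    ∃ t1 ∈ Icc t0 (t0 + D g Λ r n), r (n + 1) ≤ a (n + 1) t1 ∧ a (n + 2) t1 = δ g (n + 1) ∧
      (∀ s ∈ Icc 0 t1, a (n + 2) s ≤ δ g (n + 1)) ∧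
      ∑ m ∈ range (n + 2), g m * P m t1 ≤ Q (n + 1) := by
  have hR : 1 ≤ R := S.R_ge
  have hg0 : 0 < g n := S.g_pos n
  have hg1 : 0 < g (n + 1) := S.g_pos (n + 1)
  have hg2 : 0 < g (n + 2) := S.g_pos (n + 2)
  have hr : 0 < r n := Pr.r_pos n
  have hr1 : r n ≤ 1 := Pr.r_le n
  have hΛ : 1 ≤ Λ n := Pr.Λ_ge n
  have hδ0 : 0 < δ g n := δ_pos S n
  have hδ1 : 0 < δ g (n + 1) := δ_pos S (n + 1)
  have hgδ0 : g n * δ g n = 1 / 128 := by unfold δ; field_simp
  have hgδ1 : g (n + 1) * δ g (n + 1) = 1 / 128 := by unfold δ; field_simp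
  have hDpos : 0 < D g Λ r n := by unfold D; positivity
  have hgD : g n * D g Λ r n = 4 * Λ n / r n := by unfold D; field_simp
  set Dn := D g Λ r n with hDn
  set X := a n t0 with hX
  have hXr : r n ≤ X := hx
  have hX0 : 0 < X := lt_of_lt_of_le hr hXr
  have hT0 : (0 : ℝ) ≤ T := S.T_nonneg
  -- the ratio
  set ω := g (n + 1) / g n with hω
  have hω1 : 1 ≤ ω := by rw [hω, one_le_div hg0]; exact Pr.gmono n
  have hgω : g (n + 1) = ω * g n := by rw [hω]; field_simp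
  have hsubT : Icc t0 (t0 + Dn) ⊆ Icc 0 T :=
    fun s hs => ⟨ht0.1.trans hs.1, hs.2.trans hD⟩
  -- primitives
  have hPmono : ∀ m, MonotoneOn (P m) (Icc 0 T) := fun m =>
    mono_of_deriv (hP m) (fun t _ => le_max_right _ _)
  have hPnn : ∀ m, ∀ t ∈ Icc 0 T, 0 ≤ P m t := fun m t ht => by
    have := hPmono m (left_mem_Icc.mpr hT0) ht ht.1
    rwa [hP0] at this
  have hPR : ∀ m, ∀ s ∈ Icc 0 T, ∀ t ∈ Icc 0 T, s ≤ t → P m t - P m s ≤ R * (t - s) := by
    intro m s hs t ht hst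
    have := le_of_deriv_le (hP m) (fun t _ => hasDerivWithinAt_linear R 0 (Icc 0 T) t)
      (fun t ht => max_le ((abs_le.mp (S.a_bdd m t ht)).2) (by linarith)) hs ht hst
    linarith
  have hAP : ∀ m, ∀ s ∈ Icc 0 T, ∀ t ∈ Icc 0 T, s ≤ t → A m t - A m s ≤ P m t - P m s :=
    fun m s hs t ht hst => le_of_deriv_le (hA m) (hP m) (fun t _ => le_max_left _ _) hs ht hst
  have hAR : ∀ m, ∀ s ∈ Icc 0 T, ∀ t ∈ Icc 0 T, s ≤ t → A m t - A m s ≤ R * (t - s) :=
    fun m s hs t ht hst => (hAP m s hs t ht hst).trans (hPR m s hs t ht hst)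
  -- F1
  have hF1 : ∀ t ∈ Icc t0 (t0 + Dn), ∑ m ∈ range (n + 1), g m * P m t
      ≤ Q n + 8 * R * Λ n / r n := by
    intro t ht
    have h1 : ∑ m ∈ range (n + 1), g m * P m t
        ≤ ∑ m ∈ range (n + 1), (g m * P m t0 + g m * (R * Dn)) := by
      refine sum_le_sum fun m _ => ?_
      rw [← mul_add]
      refine mul_le_mul_of_nonneg_left ?_ (S.g_pos m).le
      have h2 := hPR m t0 ht0 t (hsubT ht) ht.1
      have h3 : R * (t - t0) ≤ R * Dn := mul_le_mul_of_nonneg_left (by linarith [ht.2]) (by linarith)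
      linarith
    rw [sum_add_distrib, ← sum_mul] at h1
    have h2 : (∑ m ∈ range (n + 1), g m) * (R * Dn) ≤ 2 * g n * (R * Dn) :=
      mul_le_mul_of_nonneg_right (Pr.sumg n) (by positivity)
    have h3 : 2 * g n * (R * Dn) = 8 * R * Λ n / r n := by
      have : 2 * g n * (R * Dn) = 2 * R * (g n * Dn) := by ring
      rw [this, hgD]; ring
    linarith
  -- F2
  have hF2 : P (n + 1) t0 ≤ δ g n := by
    have hsub : Icc 0 t0 ⊆ Icc 0 T := Icc_subset_Icc le_rfl ht0.2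
    have := le_of_deriv_le (α := 0) (β := t0) (fun t ht => (hP (n + 1) t (hsub ht)).mono hsub)
      (fun t _ => hasDerivWithinAt_linear (δ g n) 0 (Icc 0 t0) t)
      (fun t ht => max_le (hy' t ht) hδ0.le) (left_mem_Icc.mpr ht0.1) (right_mem_Icc.mpr ht0.1)
      ht0.1
    rw [hP0] at this
    have h1 : t0 ≤ 1 := ht0.2.trans S.T_le
    nlinarith
  -- F3
  have hF3 : ∀ t ∈ Icc t0 (t0 + Dn), ∑ m ∈ range (n + 2), g m * P m t ≤ Q (n + 1) := by
    intro t ht
    rw [sum_range_succ]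
    have h1 := hF1 t ht
    have h2 := hPR (n + 1) t0 ht0 t (hsubT ht) ht.1
    have h3 : R * (t - t0) ≤ R * Dn := mul_le_mul_of_nonneg_left (by linarith [ht.2]) (by linarith)
    have h4 : g (n + 1) * P (n + 1) t ≤ g (n + 1) * (δ g n + R * Dn) :=
      mul_le_mul_of_nonneg_left (by linarith) hg1.le
    have h5 : g (n + 1) * (δ g n + R * Dn) = ω * (1 / 128 + 4 * R * Λ n / r n) := by
      rw [hgω]
      have : ω * g n * (δ g n + R * Dn) = ω * (g n * δ g n + R * (g n * Dn)) := by ring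
      rw [this, hgδ0, hgD]; ring
    have h6 := Pr.Q_succ n
    rw [← hω] at h6
    have h7 : 0 ≤ R * Λ n / r n := by positivity
    have h8 : 8 * R * Λ n / r n ≤ ω * (8 * (R * Λ n / r n)) := by
      have : 8 * R * Λ n / r n = 1 * (8 * (R * Λ n / r n)) := by ring
      rw [this]
      exact mul_le_mul_of_nonneg_right hω1 (by positivity)
    have h9 : ω * (12 * R * Λ n / r n + 1 / 128)
      = ω * (1 / 128 + 4 * R * Λ n / r n) + ω * (8 * (R * Λ n / r n)) := by ring
    linarith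
  -- increments of Γ
  have hΓd : ∀ (l : ℕ) (c : ℝ), ∀ t ∈ Icc 0 T, HasDerivWithinAt
      (fun t => ∑ m ∈ range l, g m * A m t - c * (t - 0)) (W g a l t - c) (Icc 0 T) t := by
    intro l c t ht
    refine HasDerivWithinAt.sub ?_ (hasDerivWithinAt_linear c 0 _ t)
    unfold W
    exact HasDerivWithinAt.fun_sum fun m _ => (hA m t ht).const_mul (g m)
  have hΓinc : ∀ (l : ℕ) (c : ℝ), 0 ≤ c → ∀ τ ∈ Icc 0 T, ∀ s ∈ Icc 0 τ, ∀ t ∈ Icc 0 τ, s ≤ t →
      (∑ m ∈ range l, g m * A m t - c * (t - 0)) - (∑ m ∈ range l, g m * A m s - c * (s - 0))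
        ≤ ∑ m ∈ range l, g m * P m τ := by
    intro l c hc τ hτ s hs t ht hst
    have hs' : s ∈ Icc 0 T := ⟨hs.1, hs.2.trans hτ.2⟩
    have ht' : t ∈ Icc 0 T := ⟨ht.1, ht.2.trans hτ.2⟩
    have h1 : ∑ m ∈ range l, g m * A m t - ∑ m ∈ range l, g m * A m s
        ≤ ∑ m ∈ range l, g m * P m τ := by
      rw [← sum_sub_distrib]
      refine sum_le_sum fun m _ => ?_
      rw [← mul_sub]
      refine mul_le_mul_of_nonneg_left ?_ (S.g_pos m).le
      have h1 := hAP m s hs' t ht' hst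
      have h2 := hPnn m s hs'
      have h3 := hPmono m ht' hτ ht.2
      linarith
    have h2 : 0 ≤ c * (t - s) := mul_nonneg hc (by linarith)
    linarith
  -- F5: upper bound of z
  have hF5 : ∀ τ ∈ Icc 0 T, ∀ B, 0 ≤ B → ∑ m ∈ range (n + 2), g m * P m τ ≤ B → ∀ t ∈ Icc 0 τ,
      a (n + 2) t ≤ shi (n + 2) * Real.exp B := by
    intro τ hτ B hB0 hB t ht
    have hsub : Icc 0 τ ⊆ Icc 0 T := Icc_subset_Icc le_rfl hτ.2
    have h1 := gronwall_upper (f := a (n + 2)) (h := shi (n + 2)) (B := B)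
      (Pr.shi_nonneg _) (fun t ht => (S.deriv (n + 2) t (hsub ht)).mono hsub)
      (fun t ht => (hΓd (n + 2) (μ (n + 2)) t (hsub ht)).mono hsub)
      (fun t ht => by
        have h1 := S.e_nonneg (n + 2) t (hsub ht)
        have h2 := S.σ_hi (n + 2) t (hsub ht)
        have h3 : 0 ≤ g (n + 2) * e (n + 2) t := mul_nonneg hg2.le h1
        linarith)
      (fun s hs t ht hst => (hΓinc (n + 2) (μ (n + 2)) (S.μ_nonneg _) τ hτ s hs t ht hst).trans hB)
      ht (by rw [hz (n + 2) (by omega)])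
    rw [hz (n + 2) (by omega), zero_add, sub_zero] at h1
    refine h1.trans (mul_le_mul_of_nonneg_right ?_ (Real.exp_pos _).le)
    have h2 : t ≤ 1 := (ht.2.trans hτ.2).trans S.T_le
    have := Pr.shi_nonneg (n + 2)
    nlinarith
  -- z small on [0, t0]
  have hz0 : ∀ s ∈ Icc 0 t0, a (n + 2) s < δ g (n + 1) := by
    intro s hs
    have h1 : ∑ m ∈ range (n + 2), g m * P m t0 ≤ Q n + 8 * R * Λ n / r n
        + ω * (1 / 128 + 1 / 32) := by
      rw [sum_range_succ]
      have h2 : g (n + 1) * P (n + 1) t0 ≤ ω * (1 / 128) := by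
        have := mul_le_mul_of_nonneg_left hF2 hg1.le
        rw [hgω, mul_assoc, mul_assoc, hgδ0] at this
        rw [hgω, mul_assoc]; exact this
      have h3 : 0 ≤ 8 * R * Λ n / r n := by positivity
      have h4 : 0 ≤ ω := by linarith
      nlinarith
    have h2 := hF5 t0 ht0 _ (by
      have := Pr.Q_nonneg n
      have h3 : 0 ≤ 8 * R * Λ n / r n := by positivity
      have h4 : 0 ≤ ω := by linarith
      positivity) h1 s hs
    exact lt_of_le_of_lt h2 (Pr.c6 n)
  -- the functions for the continuity argument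
  let Z : ℝ → ℝ := fun t => g n * (A (n + 1) t - A (n + 1) t0)
  have hZd : ∀ t ∈ Icc 0 T, HasDerivWithinAt Z (g n * a (n + 1) t) (Icc 0 T) t :=
    fun t ht => ((hA (n + 1) t ht).sub_const _).const_mul (g n)
  have hZc : ContinuousOn Z (Icc 0 T) := fun t ht => (hZd t ht).continuousWithinAt
  have hZ0 : Z t0 = 0 := by simp [Z]
  obtain ⟨t2, ht2, hgood, halt⟩ := last_time (t0 := t0) (tE := t0 + Dn) (by linarith)
    (F := fun t => a n t - X / 2) (G := a (n + 1)) (H := fun t => 1 / 4 - Z t)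
    (I := fun t => δ g (n + 1) - a (n + 2) t)
    (((S.cont n).mono hsubT).sub continuousOn_const) ((S.cont (n + 1)).mono hsubT)
    (continuousOn_const.sub (hZc.mono hsubT)) (continuousOn_const.sub ((S.cont (n + 2)).mono hsubT))
    ⟨by show 0 ≤ a n t0 - X / 2; rw [← hX]; linarith, by rw [hy]; exact hδ0.le,
      by show 0 ≤ 1 / 4 - Z t0; rw [hZ0]; norm_num,
      by show 0 ≤ δ g (n + 1) - a (n + 2) t0; linarith [hz0 t0 (right_mem_Icc.mpr ht0.1)]⟩
  have ht2T : t2 ∈ Icc 0 T := hsubT ht2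
  have hsub2 : Icc t0 t2 ⊆ Icc 0 T := fun s hs => ⟨ht0.1.trans hs.1, hs.2.trans ht2T.2⟩
  have hsub2' : Icc t0 t2 ⊆ Icc t0 (t0 + Dn) := Icc_subset_Icc le_rfl ht2.2
  have hgx : ∀ s ∈ Icc t0 t2, X / 2 ≤ a n s := fun s hs => by
    have := (hgood s hs).1; linarith
  have hgy : ∀ s ∈ Icc t0 t2, 0 ≤ a (n + 1) s := fun s hs => (hgood s hs).2.1
  have hgZ : ∀ s ∈ Icc t0 t2, Z s ≤ 1 / 4 := fun s hs => by
    have := (hgood s hs).2.2.1; linarith
  have hgz : ∀ s ∈ Icc 0 t2, a (n + 2) s ≤ δ g (n + 1) := fun s hs => by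
    rcases le_or_gt s t0 with h | h
    · exact (hz0 s ⟨hs.1, h⟩).le
    · have := (hgood s ⟨h.le, hs.2⟩).2.2.2; linarith
  -- F4: tails
  set tb := 2 * η (n + 2) * Real.exp (2 * (Q (n + 1) + 1 / 128 * (g (n + 2) / g (n + 1)))) with htb
  have htail : ∀ s ∈ Icc 0 t2, e (n + 2) s ≤ tb := by
    intro s hs
    refine S.tail hA hP0 hP (fun l hl => hz l (by omega)) (Pr.hη (n + 2)) (Pr.hη' (n + 2))
      ht2T ?_ hs
    rw [sum_range_succ]
    have h1 := hF3 t2 ht2
    have h2 : P (n + 2) t2 ≤ δ g (n + 1) := by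
      have hsub : Icc 0 t2 ⊆ Icc 0 T := Icc_subset_Icc le_rfl ht2T.2
      have := le_of_deriv_le (α := 0) (β := t2) (fun t ht => (hP (n + 2) t (hsub ht)).mono hsub)
        (fun t _ => hasDerivWithinAt_linear (δ g (n + 1)) 0 (Icc 0 t2) t)
        (fun t ht => max_le (hgz t ht) hδ1.le) (left_mem_Icc.mpr ht2T.1)
        (right_mem_Icc.mpr ht2T.1) ht2T.1
      rw [hP0] at this
      have h1 : t2 ≤ 1 := ht2T.2.trans S.T_le
      nlinarith
    have h3 := mul_le_mul_of_nonneg_left h2 hg2.le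
    have h4 : g (n + 2) * δ g (n + 1) = 1 / 128 * (g (n + 2) / g (n + 1)) := by
      unfold δ; field_simp
    linarith
  have hzsrc : ∀ s ∈ Icc 0 t2, slo (n + 2) / 2 ≤ - (g (n + 2) * e (n + 2) s) + σ (n + 2) s := by
    intro s hs
    have hsT : s ∈ Icc 0 T := ⟨hs.1, hs.2.trans ht2T.2⟩
    have h1 := htail s hs
    have h2 := Pr.c3c n
    rw [← htb] at h2
    have h3 := S.σ_lo (n + 2) s hsT
    have h4 : g (n + 2) * e (n + 2) s ≤ g (n + 2) * (slo (n + 2) / (2 * g (n + 2))) :=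
      mul_le_mul_of_nonneg_left (h1.trans h2) hg2.le
    have h5 : g (n + 2) * (slo (n + 2) / (2 * g (n + 2))) = slo (n + 2) / 2 := by field_simp
    linarith
  have hznn : ∀ s ∈ Icc 0 t2, 0 ≤ a (n + 2) s := by
    intro s hs
    have hsub : Icc 0 t2 ⊆ Icc 0 T := Icc_subset_Icc le_rfl ht2T.2
    refine gronwall_nonneg (fun t ht => (S.deriv (n + 2) t (hsub ht)).mono hsub)
      (fun t ht => (hΓd (n + 2) (μ (n + 2)) t (hsub ht)).mono hsub)
      (fun t ht => ?_) hs (by rw [hz (n + 2) (by omega)])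
    have h1 := hzsrc t ht
    have h2 := S.slo_pos (n + 2)
    linarith
  have he1 : ∀ s ∈ Icc 0 t2, e (n + 1) s ≤ 2 * δ g (n + 1) ^ 2 := by
    intro s hs
    have hsT : s ∈ Icc 0 T := ⟨hs.1, hs.2.trans ht2T.2⟩
    rw [S.rec_e (n + 1) s hsT]
    have h1 := htail s hs
    have h2 := Pr.c3b n
    rw [← htb] at h2
    have h3 := (S.κ_hi (n + 2) s hsT).trans (Pr.c3a n)
    have h4 : a (n + 2) s ^ 2 ≤ δ g (n + 1) ^ 2 :=
      pow_le_pow_left₀ (hznn s hs) (hgz s hs) 2
    have h5 : a (n + 1 + 1) s = a (n + 2) s := rfl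
    have h6 : κ (n + 1 + 1) s = κ (n + 2) s := rfl
    have h7 : e (n + 1 + 1) s = e (n + 2) s := rfl
    rw [h5, h6, h7]
    linarith
  -- smallness of w and μ
  have hw0 : 0 ≤ w g R n := S.w_nonneg n
  have hμ1 : 0 ≤ μ (n + 1) := S.μ_nonneg _
  have hRΛ : 1 ≤ R * Λ n := by nlinarith
  have hc1 : 64 * (w g R n + μ (n + 1)) ≤ g n * r n ^ 2 := by
    have h1 := Pr.c1 n
    have h2 : 64 * (w g R n + μ (n + 1)) ≤ 64 * R * Λ n * (w g R n + μ (n + 1)) := by
      have : 0 ≤ w g R n + μ (n + 1) := by linarith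
      nlinarith
    linarith
  have hc1' : w g R n + μ (n + 1) ≤ g n * r n / 64 := by
    have h1 : g n * r n ^ 2 ≤ g n * r n := by nlinarith [mul_pos hg0 hr]
    linarith
  have hDw : Dn * ((w g R n + μ (n + 1)) * R) ≤ r n / 16 := by
    have h1 := Pr.c1 n
    have h2 : Dn * ((w g R n + μ (n + 1)) * R)
        = (64 * R * Λ n * (w g R n + μ (n + 1))) / (16 * (g n * r n)) := by
      rw [hDn]; unfold D; field_simp; ring
    rw [h2, div_le_iff₀ (by positivity)]
    calc _ ≤ g n * r n ^ 2 := h1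
      _ = r n / 16 * (16 * (g n * r n)) := by ring
  -- x upper bound
  have hxu : ∀ t ∈ Icc t0 t2, a n t ≤ 9 / 8 * X := by
    intro t ht
    have h1 := le_of_deriv_le (α := t0) (β := t2) (f := a n) (g := fun x => (w g R n * R + shi n) * (x - t0))
      (fun t ht => (S.deriv n t (hsub2 ht)).mono hsub2)
      (fun t _ => hasDerivWithinAt_linear _ t0 _ t) (fun t ht => by
        have hT := hsub2 ht
        have h1 := S.e_nonneg n t hT
        have h2 := S.σ_hi n t hT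
        have h3 : 0 ≤ g n * e n t := mul_nonneg hg0.le h1
        have h4 := abs_le.mp (S.abs_W_le n hT)
        have h5 := abs_le.mp (S.a_bdd n t hT)
        have h6 : 0 ≤ a n t := by linarith [hgx t ht]
        have h7 : W g a n t * a n t ≤ w g R n * R := by
          calc _ ≤ w g R n * a n t := mul_le_mul_of_nonneg_right h4.2 h6
            _ ≤ w g R n * R := mul_le_mul_of_nonneg_left h5.2 hw0
        have h8 : 0 ≤ μ n * a n t := mul_nonneg (S.μ_nonneg n) h6
        linarith) (left_mem_Icc.mpr ht2.1) ht ht.1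
    simp only [sub_self, mul_zero, sub_zero] at h1
    have h2 : (w g R n * R + shi n) * (t - t0) ≤ Dn * (w g R n * R) + Dn * shi n := by
      have h3 : 0 ≤ w g R n * R + shi n :=
        add_nonneg (mul_nonneg hw0 (by linarith)) (Pr.shi_nonneg n)
      have h4 : t - t0 ≤ Dn := by linarith [ht.2, ht2.2]
      nlinarith
    have h3 : Dn * (w g R n * R) ≤ r n / 16 := by
      refine le_trans ?_ hDw
      refine mul_le_mul_of_nonneg_left ?_ hDpos.le
      exact mul_le_mul_of_nonneg_right (by linarith) (by linarith)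
    have h4 := Pr.c2a n
    rw [← hDn] at h4
    linarith
  -- y upper bound
  have hyu : ∀ t ∈ Icc t0 t2, a (n + 1) t ≤ X / 2 := by
    intro t ht
    have h1 := le_of_deriv_le (α := t0) (β := t2) (f := a (n + 1))
      (g := fun x => (r n / 64 + 9 / 8 * X) * Z x + shi (n + 1) * (x - t0))
      (fun t ht => (S.deriv (n + 1) t (hsub2 ht)).mono hsub2)
      (fun t ht => (((hZd t (hsub2 ht)).mono hsub2).const_mul _).add
        (hasDerivWithinAt_linear _ t0 _ t)) (fun t ht => by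
        have hT := hsub2 ht
        have h1 := S.e_nonneg (n + 1) t hT
        have h2 := S.σ_hi (n + 1) t hT
        have h3 : 0 ≤ g (n + 1) * e (n + 1) t := mul_nonneg hg1.le h1
        have h4 := abs_le.mp (S.abs_W_le n hT)
        have h6 : 0 ≤ a (n + 1) t := hgy t ht
        have h7 := hxu t ht
        rw [W_succ]
        have h8 : 0 ≤ μ (n + 1) * a (n + 1) t := mul_nonneg hμ1 h6
        have h9 : W g a n t ≤ g n * (r n / 64) := by linarith
        have h10 : (W g a n t + g n * a n t) * a (n + 1) t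
            ≤ (g n * (r n / 64) + g n * (9 / 8 * X)) * a (n + 1) t := by
          refine mul_le_mul_of_nonneg_right ?_ h6
          have := mul_le_mul_of_nonneg_left h7 hg0.le
          linarith
        linarith) (left_mem_Icc.mpr ht2.1) ht ht.1
    simp only [sub_self, mul_zero, add_zero, hZ0, sub_zero] at h1
    rw [hy] at h1
    have h2 := hgZ t ht
    have h3 : (r n / 64 + 9 / 8 * X) * Z t ≤ (r n / 64 + 9 / 8 * X) * (1 / 4) :=
      mul_le_mul_of_nonneg_left h2 (by positivity)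
    have h4 : shi (n + 1) * (t - t0) ≤ Dn * shi (n + 1) := by
      have h5 : t - t0 ≤ Dn := by linarith [ht.2, ht2.2]
      have := Pr.shi_nonneg (n + 1)
      nlinarith
    have h5 := Pr.c2a' n
    rw [← hDn] at h5
    have h6 := Pr.c4' n
    linarith
  -- x lower bound
  have hxl : ∀ t ∈ Icc t0 t2, 3 / 4 * X ≤ a n t := by
    intro t ht
    have h1 := le_of_deriv_le (α := t0) (β := t2) (f := fun x => - a n x)
      (g := fun x => ((w g R n + μ (n + 1)) * R + g n * (κh (n + 1) + 2 * δ g (n + 1) ^ 2)) * (x - t0)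
        + X / 2 * Z x)
      (fun t ht => ((S.deriv n t (hsub2 ht)).mono hsub2).neg)
      (fun t ht => (hasDerivWithinAt_linear _ t0 _ t).add
        (((hZd t (hsub2 ht)).mono hsub2).const_mul _)) (fun t ht => by
        have hT := hsub2 ht
        have h0 : t ∈ Icc 0 t2 := ⟨hT.1, ht.2⟩
        have h2 : 0 ≤ σ n t := (S.slo_pos n).le.trans (S.σ_lo n t hT)
        have h4 := abs_le.mp (S.abs_W_le n hT)
        have h5 := abs_le.mp (S.a_bdd n t hT)
        have h6 : 0 ≤ a n t := by linarith [hgx t ht]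
        have h7 := S.rec_e n t hT
        have h8 := S.κ_hi (n + 1) t hT
        have h9 := he1 t h0
        have h10 : a (n + 1) t ^ 2 ≤ X / 2 * a (n + 1) t := by
          rw [pow_two]; exact mul_le_mul_of_nonneg_right (hyu t ht) (hgy t ht)
        have h11 : g n * e n t ≤ g n * (X / 2 * a (n + 1) t + (κh (n + 1) + 2 * δ g (n + 1) ^ 2)) :=
          mul_le_mul_of_nonneg_left (by rw [h7]; linarith) hg0.le
        have h12 : -((w g R n + μ (n + 1)) * R) ≤ (W g a n t - μ n) * a n t := by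
          have h13 := Pr.μ_mono n
          have h14 : -(w g R n + μ (n + 1)) ≤ W g a n t - μ n := by linarith
          have h15 : 0 ≤ w g R n + μ (n + 1) := by linarith
          nlinarith
        linarith) (left_mem_Icc.mpr ht2.1) ht ht.1
    simp only [sub_self, mul_zero, zero_add, hZ0, sub_zero] at h1
    have h2 := hgZ t ht
    have h3 : X / 2 * Z t ≤ X / 2 * (1 / 4) := mul_le_mul_of_nonneg_left h2 (by positivity)
    have h4 : ((w g R n + μ (n + 1)) * R + g n * (κh (n + 1) + 2 * δ g (n + 1) ^ 2)) * (t - t0)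
        ≤ Dn * ((w g R n + μ (n + 1)) * R) + g n * Dn * (κh (n + 1) + 2 * δ g (n + 1) ^ 2) := by
      have h5 : t - t0 ≤ Dn := by linarith [ht.2, ht2.2]
      have h6 : 0 ≤ (w g R n + μ (n + 1)) * R + g n * (κh (n + 1) + 2 * δ g (n + 1) ^ 2) := by
        have := Pr.κh_nonneg (n + 1)
        positivity
      nlinarith
    have h5 := Pr.c2b n
    rw [← hDn] at h5
    have h6 : -a n t - -a n t0 = X - a n t := by rw [hX]; ring
    rw [h6] at h1
    linarith
  -- growth rate of y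
  have hyr : ∀ t ∈ Icc t0 t2, X / 2 * (g n * a (n + 1) t) - 2 * g (n + 1) * δ g (n + 1) ^ 2
      ≤ (W g a (n + 1) t - μ (n + 1)) * a (n + 1) t - g (n + 1) * e (n + 1) t + σ (n + 1) t := by
    intro t ht
    have hT := hsub2 ht
    have h0 : t ∈ Icc 0 t2 := ⟨hT.1, ht.2⟩
    have h2 : 0 ≤ σ (n + 1) t := (S.slo_pos _).le.trans (S.σ_lo _ t hT)
    have h4 := abs_le.mp (S.abs_W_le n hT)
    have h6 := hgy t ht
    have h7 := hxl t ht
    have h9 := mul_le_mul_of_nonneg_left (he1 t h0) hg1.le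
    rw [W_succ]
    have h10 : g n * (3 / 4 * X) ≤ g n * a n t := mul_le_mul_of_nonneg_left h7 hg0.le
    have h11 : g n * r n ≤ g n * X := mul_le_mul_of_nonneg_left hXr hg0.le
    have h12 : 0 < g n * X := mul_pos hg0 hX0
    have h13 : X / 2 * g n ≤ W g a n t + g n * a n t - μ (n + 1) := by linarith
    have h14 := mul_le_mul_of_nonneg_right h13 h6
    linarith
  have hsmall : 2 * g (n + 1) * δ g (n + 1) ^ 2 = 1 / (8192 * g (n + 1)) := by
    unfold δ; field_simp; norm_num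
  have hsmall2 : 2 * g (n + 1) * δ g (n + 1) ^ 2 ≤ (g n * X / 2) * (δ g n / 2) := by
    rw [hsmall]
    have h1 : (g n * X / 2) * (δ g n / 2) = X / 512 := by
      have : (g n * X / 2) * (δ g n / 2) = (g n * δ g n) * X / 4 := by ring
      rw [this, hgδ0]; ring
    rw [h1, div_le_iff₀ (by positivity)]
    have h2 := Pr.c4 n
    have h3 : g (n + 1) * r n ≤ g (n + 1) * X := mul_le_mul_of_nonneg_left hXr hg1.le
    nlinarith
  have hygrow : ∀ t ∈ Icc t0 t2, δ g n / 2 * Real.exp (g n * X / 2 * (t - t0))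
      ≤ a (n + 1) t - δ g n / 2 := by
    intro t ht
    have h1 := exp_growth (f := a (n + 1)) (ρ := g n * X / 2) (h := δ g n / 2)
      (fun t ht => (S.deriv (n + 1) t (hsub2 ht)).mono hsub2) (fun t ht => by
        have h1 := hyr t ht
        have h2 : g n * X / 2 * (a (n + 1) t - δ g n / 2)
          = X / 2 * (g n * a (n + 1) t) - (g n * X / 2) * (δ g n / 2) := by ring
        linarith) ht
    rw [hy] at h1
    have h2 : δ g n - δ g n / 2 = δ g n / 2 := by ring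
    rwa [h2] at h1
  have hypos : 0 < a (n + 1) t2 := by
    have h1 := hygrow t2 (right_mem_Icc.mpr ht2.1)
    have h2 : 0 < δ g n / 2 * Real.exp (g n * X / 2 * (t2 - t0)) :=
      mul_pos (by linarith) (Real.exp_pos _)
    linarith
  -- t2 < tE
  have ht2lt : t2 < t0 + Dn := by
    rcases lt_or_eq_of_le ht2.2 with h | h
    · exact h
    · exfalso
      have h1 := hygrow t2 (right_mem_Icc.mpr ht2.1)
      rw [h] at h1
      have h2 : 2 * Λ n ≤ g n * X / 2 * (t0 + Dn - t0) := by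
        have h3 : g n * X / 2 * (t0 + Dn - t0) = (g n * Dn) * X / 2 := by ring
        rw [h3, hgD]
        rw [show 4 * Λ n / r n * X / 2 = 2 * Λ n * (X / r n) by field_simp; ring]
        have h4 : 1 ≤ X / r n := by rw [one_le_div hr]; exact hXr
        nlinarith
      have h3 : Real.exp (2 * Λ n) ≤ Real.exp (g n * X / 2 * (t0 + Dn - t0)) :=
        Real.exp_le_exp.mpr h2
      have h4 := Pr.c5 n
      have h5 := mul_le_mul_of_nonneg_left h3 hδ0.le
      have h6 := (abs_le.mp (S.a_bdd (n + 1) t2 ht2T)).2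
      rw [h] at h6
      linarith
  -- Z ≤ g R (t - t0)
  have hZR : ∀ s ∈ Icc t0 t2, Z s ≤ g n * R * (s - t0) := by
    intro s hs
    have h1 := hAR (n + 1) t0 ht0 s (hsub2 hs) hs.1
    have h2 := mul_le_mul_of_nonneg_left h1 hg0.le
    simp only [Z]
    linarith
  have hzfin : a (n + 2) t2 = δ g (n + 1) := by
    rcases halt ht2lt with h | h | h | h
    · exfalso
      have := hxl t2 (right_mem_Icc.mpr ht2.1)
      linarith
    · exfalso; linarith
    · exfalso
      have hZ2 : Z t2 = 1 / 4 := by linarith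
      have hZt2 := hZR t2 (right_mem_Icc.mpr ht2.1)
      rw [hZ2] at hZt2
      have hgR : 0 < g n * R := by positivity
      have hlen : 1 / (8 * (g n * R)) ≤ t2 - t0 := by
        rw [div_le_iff₀ (by positivity)]
        linarith
      have hseed := gronwall_seed (f := a (n + 2)) (Γ := fun t => ω * Z t - μ (n + 2) * (t - t0))
        (γ := fun t => g (n + 1) * a (n + 1) t - μ (n + 2)) (α := t0) (β := t2)
        (t₁ := t0 + 1 / (8 * (g n * R))) (B := ω / 8 - μ (n + 2) * Dn) (h := slo (n + 2) / 2)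
        (by have := S.slo_pos (n + 2); linarith)
        ⟨by have : 0 < 1 / (8 * (g n * R)) := by positivity
            linarith, by linarith⟩
        (fun t ht => (S.deriv (n + 2) t (hsub2 ht)).mono hsub2)
        (fun t ht => by
          have h1 := (((hZd t (hsub2 ht)).mono hsub2).const_mul ω).sub
            (hasDerivWithinAt_linear (μ (n + 2)) t0 (Icc t0 t2) t)
          have h2 : ω * (g n * a (n + 1) t) - μ (n + 2) = g (n + 1) * a (n + 1) t - μ (n + 2) := by
            rw [hgω]; ring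
          rw [h2] at h1
          exact h1)
        (fun t ht => by
          have hT := hsub2 ht
          have h0 : t ∈ Icc 0 t2 := ⟨hT.1, ht.2⟩
          have h1 := hzsrc t h0
          have h2 := hznn t h0
          have h4 := abs_le.mp (S.abs_W_le n hT)
          have h7 := hxl t ht
          have h10 : g n * (3 / 4 * X) ≤ g n * a n t := mul_le_mul_of_nonneg_left h7 hg0.le
          have h11 : g n * r n ≤ g n * X := mul_le_mul_of_nonneg_left hXr hg0.le
          have h12 : 0 < g n * X := mul_pos hg0 hX0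
          have h13 : W g a (n + 2) t = W g a n t + g n * a n t + g (n + 1) * a (n + 1) t := by
            rw [W_succ, W_succ]
          rw [h13]
          have h14 : 0 ≤ (W g a n t + g n * a n t) * a (n + 2) t :=
            mul_nonneg (by linarith) h2
          linarith)
        (fun s hs => by
          have hs2 : s ∈ Icc t0 t2 := ⟨hs.1, by linarith [hs.2]⟩
          have h1 := hZR s hs2
          have h2 : g n * R * (s - t0) ≤ 1 / 8 := by
            have h3 : s - t0 ≤ 1 / (8 * (g n * R)) := by linarith [hs.2]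
            calc g n * R * (s - t0) ≤ g n * R * (1 / (8 * (g n * R))) :=
                  mul_le_mul_of_nonneg_left h3 hgR.le
              _ = 1 / 8 := by field_simp
          have h3 : μ (n + 2) * (t2 - s) ≤ μ (n + 2) * Dn :=
            mul_le_mul_of_nonneg_left (by linarith [hs.1, ht2.2]) (S.μ_nonneg _)
          rw [hZ2]
          have h4 : ω * Z s ≤ ω * (1 / 8) := mul_le_mul_of_nonneg_left (by linarith) (by linarith)
          linarith)
        (hznn t0 ⟨ht0.1, ht2.1⟩)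
      have h1 := Pr.c7 n
      rw [← hDn, ← hω] at h1
      have h2 : t0 + 1 / (8 * (g n * R)) - t0 = 1 / (8 * (g n * R)) := by ring
      rw [h2] at hseed
      have h3 := hgz t2 ⟨ht2T.1, le_rfl⟩
      linarith
    · linarith
  -- Z t2 ≥ 1/32
  have hZge : 1 / 32 ≤ Z t2 := by
    by_contra hcon
    push Not at hcon
    have h1 : ∑ m ∈ range (n + 2), g m * P m t2 ≤ Q n + 8 * R * Λ n / r n
        + ω * (1 / 128 + 1 / 32) := by
      rw [sum_range_succ]
      have h2 := hF1 t2 ht2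
      have h3 : P (n + 1) t2 - P (n + 1) t0 ≤ A (n + 1) t2 - A (n + 1) t0 :=
        le_of_deriv_le (α := t0) (β := t2) (fun t ht => (hP (n + 1) t (hsub2 ht)).mono hsub2)
          (fun t ht => (hA (n + 1) t (hsub2 ht)).mono hsub2)
          (fun t ht => max_le le_rfl (hgy t ht)) (left_mem_Icc.mpr ht2.1)
          (right_mem_Icc.mpr ht2.1) ht2.1
      have h4 : g (n + 1) * P (n + 1) t2 ≤ g (n + 1) * (δ g n + (A (n + 1) t2 - A (n + 1) t0)) :=
        mul_le_mul_of_nonneg_left (by linarith) hg1.le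
      have h5 : g (n + 1) * (δ g n + (A (n + 1) t2 - A (n + 1) t0)) = ω * (1 / 128 + Z t2) := by
        rw [hgω]
        have : ω * g n * (δ g n + (A (n + 1) t2 - A (n + 1) t0)) = ω * (g n * δ g n + Z t2) := by
          simp only [Z]; ring
        rw [this, hgδ0]
      have h6 : ω * (1 / 128 + Z t2) ≤ ω * (1 / 128 + 1 / 32) :=
        mul_le_mul_of_nonneg_left (by linarith) (by linarith)
      linarith
    have h2 := hF5 t2 ht2T _ (by
      have := Pr.Q_nonneg n
      have h3 : 0 ≤ 8 * R * Λ n / r n := by positivity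
      have h4 : 0 ≤ ω := by linarith
      positivity) h1 t2 (right_mem_Icc.mpr ht2T.1)
    have h3 := Pr.c6 n
    rw [← hω] at h3
    linarith
  -- y in terms of Z
  have hyfin : X / 64 ≤ a (n + 1) t2 := by
    have h1 := le_of_deriv_le (α := t0) (β := t2) (f := fun x => X / 2 * Z x
        - 2 * g (n + 1) * δ g (n + 1) ^ 2 * (x - t0)) (g := a (n + 1))
      (fun t ht => (((hZd t (hsub2 ht)).mono hsub2).const_mul _).sub
        (hasDerivWithinAt_linear _ t0 _ t))
      (fun t ht => (S.deriv (n + 1) t (hsub2 ht)).mono hsub2)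
      (fun t ht => hyr t ht) (left_mem_Icc.mpr ht2.1) (right_mem_Icc.mpr ht2.1) ht2.1
    simp only [sub_self, mul_zero, hZ0, sub_zero] at h1
    rw [hy] at h1
    have h2 : 2 * g (n + 1) * δ g (n + 1) ^ 2 * (t2 - t0) ≤ δ g n := by
      have h3 : t2 - t0 ≤ Dn := by linarith [ht2.2]
      have h4 : 0 ≤ 2 * g (n + 1) * δ g (n + 1) ^ 2 := by positivity
      refine (mul_le_mul_of_nonneg_left h3 h4).trans ?_
      rw [hsmall, hDn]
      unfold D δ
      rw [div_mul_div_comm, div_le_div_iff₀ (by positivity) (by positivity)]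
      have h5 := Pr.c4 n
      have h6 : 0 < g n * r n := by positivity
      nlinarith
    have h3 : X / 2 * (1 / 32) ≤ X / 2 * Z t2 := mul_le_mul_of_nonneg_left hZge (by positivity)
    linarith
  refine ⟨t2, ht2, ?_, hzfin, hgz, hF3 t2 ht2⟩
  rw [Pr.r_succ]
  linarith

end Pool.Agent.H402V3
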