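import Mathlib
import Pool.Agent.H402V3.Sys

/-! The closed span and the representation of its elements away from the origin. -/

open Set MeasureTheory Filter Topology Finset
open scoped RealInnerProductSpace ContDiff

namespace Pool.Agent.H402V3

/-- `C^1` compactly supported divergence-free fields in the `L²`-closure of the span of `Φ` -/
def InX (Φ : ℕ → V → V) (v : V → V) : Prop :=
  TF v ∧ ∀ η > 0, ∃ w ∈ Submodule.span ℝ (range Φ), ∫ x, ‖v x - w x‖ ^ 2 ≤ η

structure CC (v : V → V) : Prop where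
  co : Continuous v
  cs : HasCompactSupport v

theorem TF.CC {v : V → V} (h : TF v) : CC v := ⟨h.cont, h.cs⟩

theorem CC.out {v : V → V} (hv : CC v) : ∃ R, ∀ x, R < ‖x‖ → v x = 0 := by
  obtain ⟨R, hR⟩ := hv.cs.isBounded.subset_closedBall 0
  refine ⟨R, fun x hx => ?_⟩
  have hx' : x ∉ tsupport v := fun h => by
    have := hR h
    simp at this
    linarith
  exact image_eq_zero_of_notMem_tsupport hx'

theorem CC.add {u v : V → V} (hu : CC u) (hv : CC v) : CC (u + v) := ⟨hu.co.add hv.co, hu.cs.add hv.cs⟩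

theorem CC.smul {u : V → V} (hu : CC u) (c : ℝ) : CC (c • u) where
  co := hu.co.const_smul c
  cs := by
    obtain ⟨R, hR⟩ := hu.out
    refine HasCompactSupport.intro (isCompact_closedBall (0 : V) R) fun x hx => ?_
    have : R < ‖x‖ := by simpa using hx
    simp [hR x this]

theorem CC.sub {u v : V → V} (hu : CC u) (hv : CC v) : CC (u - v) := by
  have := hu.add (hv.smul (-1))
  simpa [sub_eq_add_neg] using this

theorem CC.zero : CC (0 : V → V) := ⟨continuous_const, HasCompactSupport.zero⟩

theorem CC.sum {ι : Type*} {s : Finset ι} {u : ι → V → V} (hu : ∀ i ∈ s, CC (u i)) :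
    CC (∑ i ∈ s, u i) := by
  classical
  induction s using Finset.induction_on with
  | empty => simpa using CC.zero
  | insert a s ha ih =>
    rw [Finset.sum_insert ha]
    exact (hu a (Finset.mem_insert_self _ _)).add (ih fun i hi => hu i (Finset.mem_insert_of_mem hi))

theorem cip_int {u v : V → V} (hu : Continuous u) (hv : CC v) : Integrable fun x => ⟪u x, v x⟫ := by
  obtain ⟨R, hR⟩ := hv.out
  have := hv.co
  exact integrable_of_zero (by fun_prop) (R := R) fun x hx => by simp [hR x hx]

theorem cip_add {u v₁ v₂ : V → V} (hu : Continuous u) (h₁ : CC v₁) (h₂ : CC v₂) :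
    ip u (v₁ + v₂) = ip u v₁ + ip u v₂ := by
  unfold ip
  rw [← integral_add (cip_int hu h₁) (cip_int hu h₂)]
  simp [inner_add_right]

theorem ip_smul_right (c : ℝ) (u v : V → V) : ip u (c • v) = c * ip u v := by
  rw [ip_comm, ip_smul_left, ip_comm]

theorem cip_sub {u v₁ v₂ : V → V} (hu : Continuous u) (h₁ : CC v₁) (h₂ : CC v₂) :
    ip u (v₁ - v₂) = ip u v₁ - ip u v₂ := by
  unfold ip
  rw [← integral_sub (cip_int hu h₁) (cip_int hu h₂)]
  simp [inner_sub_right]

theorem cip_sum {ι : Type*} {s : Finset ι} {u : V → V} {v : ι → V → V}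
    (hu : Continuous u) (hv : ∀ i ∈ s, CC (v i)) :
    ip u (∑ i ∈ s, v i) = ∑ i ∈ s, ip u (v i) := by
  unfold ip
  rw [← integral_finsetSum _ (fun i hi => cip_int hu (hv i hi))]
  simp [inner_sum]

theorem ip_self_nonneg (u : V → V) : 0 ≤ ip u u := by
  unfold ip
  exact integral_nonneg fun x => real_inner_self_nonneg

theorem ip_cs {u v : V → V} (hu : CC u) (hv : CC v) : ip u v ^ 2 ≤ ip u u * ip v v := by
  have h : ∀ t : ℝ, 0 ≤ ip v v * (t * t) + 2 * ip u v * t + ip u u := by
    intro t
    have h1 := ip_self_nonneg (u + t • v)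
    have hc : Continuous (u + t • v) := hu.co.add (hv.co.const_smul t)
    rw [cip_add hc hu (hv.smul t), ip_smul_right, ip_comm _ u, ip_comm _ v,
      cip_add hu.co hu (hv.smul t), cip_add hv.co hu (hv.smul t), ip_smul_right, ip_smul_right,
      ip_comm v u] at h1
    linarith
  have h2 := discrim_le_zero h
  unfold discrim at h2
  linarith

/-- elements of the closed span are orthogonal to everything orthogonal to the family -/
theorem InX.orth {Φ : ℕ → V → V} {v k : V → V} (hΦ : ∀ j, CC (Φ j)) (hv : InX Φ v) (hk : CC k)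
    (h : ∀ j, ip (Φ j) k = 0) : ip v k = 0 := by
  have hw : ∀ w ∈ Submodule.span ℝ (range Φ), CC w ∧ ip w k = 0 := by
    intro w hw
    induction hw using Submodule.span_induction with
    | mem x hx => obtain ⟨j, rfl⟩ := hx; exact ⟨hΦ j, h j⟩
    | zero => exact ⟨CC.zero, by simp [ip]⟩
    | add x y _ _ hx hy =>
      refine ⟨hx.1.add hy.1, ?_⟩
      rw [ip_comm, cip_add hk.co hx.1 hy.1, ip_comm k x, ip_comm k y, hx.2, hy.2, add_zero]
    | smul c x _ hx => exact ⟨hx.1.smul c, by rw [ip_smul_left, hx.2, mul_zero]⟩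
  have h1 : ∀ η > 0, ip v k ^ 2 ≤ η * ip k k := by
    intro η hη
    obtain ⟨w, hws, hwη⟩ := hv.2 η hη
    obtain ⟨hwc, hwk⟩ := hw w hws
    have h2 : ip (v - w) k = ip v k := by
      rw [ip_comm, cip_sub hk.co hv.1.CC hwc, ip_comm k v, ip_comm k w, hwk, sub_zero]
    rw [← h2]
    refine (ip_cs (hv.1.CC.sub hwc) hk).trans ?_
    refine mul_le_mul_of_nonneg_right ?_ (ip_self_nonneg k)
    refine le_trans (le_of_eq ?_) hwη
    unfold ip
    simp
  have h3 : ip v k ^ 2 ≤ 0 := by
    refine le_of_forall_pos_le_add fun δ hδ => ?_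
    have hk0 := ip_self_nonneg k
    have h4 := h1 (δ / (ip k k + 1)) (by positivity)
    refine h4.trans ?_
    rw [zero_add, div_mul_eq_mul_div, div_le_iff₀ (by positivity)]
    nlinarith
  have h4 : ip v k ^ 2 = 0 := le_antisymm h3 (sq_nonneg _)
  exact pow_eq_zero_iff (two_ne_zero) |>.mp h4

section

variable {φ ρ ψ : V → V} {x₁ : V} {M ε : ℕ → ℝ}

/-- the generating family -/
noncomputable def Fam (φ ψ ρ : V → V) (M ε : ℕ → ℝ) : ℕ → V → V
  | 0 => PP ψ ρ M ε
  | (n + 1) => sc (M n) φ

noncomputable def cf (ψ ρ : V → V) (M ε : ℕ → ℝ) (v : V → V) : ℝ :=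
  ip v (PP ψ ρ M ε) / ip (PP ψ ρ M ε) (PP ψ ρ M ε)

noncomputable def af (φ : V → V) (M : ℕ → ℝ) (v : V → V) (n : ℕ) : ℝ :=
  ip v (sc (M n) φ) / ip φ φ

theorem Fam_TF (P : Prof φ ρ ψ x₁) (S : Scl M ε) (j : ℕ) : TF (Fam φ ψ ρ M ε j) := by
  cases j with
  | zero => exact PP_TF P S
  | succ n => exact φT P S n

theorem ip_pos_of {v : V → V} (hv : CC v) {x : V} (hx : v x ≠ 0) : 0 < ip v v := by
  unfold ip
  have hc : HasCompactSupport fun x => ⟪v x, v x⟫ := by
    obtain ⟨R, hR⟩ := hv.out
    exact HasCompactSupport.intro (isCompact_closedBall (0 : V) R) fun x hx => by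
      simp [hR x (by simpa using hx)]
  have := hv.co
  refine Continuous.integral_pos_of_hasCompactSupport_nonneg_nonzero (by fun_prop) hc
    (fun x => real_inner_self_nonneg) (x := x) ?_
  simpa using hx

theorem eq_zero_of_ip {v : V → V} (hv : CC v) (h : ip v v = 0) (x : V) : v x = 0 := by
  by_contra hx
  exact (ip_pos_of hv hx).ne' h

theorem PP_pos (P : Prof φ ρ ψ x₁) (S : Scl M ε) : ip ψ ψ ≤ ip (PP ψ ρ M ε) (PP ψ ρ M ε) := by
  unfold ip
  refine integral_mono (cip_int P.ψT.cont P.ψT.CC) (cip_int (PP_TF P S).cont (PP_TF P S).CC) ?_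
  intro x
  simp only
  rcases lt_or_ge ‖x‖ (5 / 4) with h | h
  · rw [P.ψ0 x h]; simp
  · rw [PP_out P S 0 x (by linarith [S.rad_half 0]), Pn_apply]
    simp

theorem φ_pos (P : Prof φ ρ ψ x₁) : 0 < ip φ φ := by
  by_contra h
  have h1 : ip φ φ = 0 := le_antisymm (not_lt.mp h) (ip_self_nonneg _)
  have h2 := eq_zero_of_ip P.φT.CC h1
  have h3 := P.q_pos
  unfold hf at h3
  simp [h2] at h3

theorem rep (P : Prof φ ρ ψ x₁) (S : Scl M ε) {v : V → V} (hv : InX (Fam φ ψ ρ M ε) v) (n : ℕ)
    (x : V) (hx : 3 / 4 * rad M n < ‖x‖) :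
    v x = cf ψ ρ M ε v • PP ψ ρ M ε x + ∑ m ∈ range n, af φ M v m • sc (M m) φ x := by
  set Q := PP ψ ρ M ε with hQ
  set D : V → V := v - (cf ψ ρ M ε v • Q + ∑ m ∈ range n, af φ M v m • sc (M m) φ) with hD
  have hQC : CC Q := (PP_TF P S).CC
  have hQpos : 0 < ip Q Q := P.ψ_pos.trans_le (PP_pos P S)
  have hFpos : 0 < ip φ φ := φ_pos P
  have hsum : CC (∑ m ∈ range n, af φ M v m • sc (M m) φ) :=
    CC.sum fun m _ => (φT P S m).CC.smul _
  have hDC : CC D := hv.1.CC.sub ((hQC.smul _).add hsum)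
  -- a cut-off version of D
  set h : V → V := fun x => (max (‖x‖ - 3 / 4 * rad M n) 0) • D x with hh
  have hhC : CC h := by
    refine ⟨?_, ?_⟩
    · have := hDC.co
      fun_prop
    · obtain ⟨R, hR⟩ := hDC.out
      exact HasCompactSupport.intro (isCompact_closedBall (0 : V) R) fun x hx => by
        simp [hh, hR x (by simpa using hx)]
  have hsum2 : ∀ c : ℕ → ℝ, CC (∑ m ∈ range n, c m • sc (M m) φ) :=
    fun c => CC.sum fun m _ => (φT P S m).CC.smul _
  set k : V → V := h - ((ip Q h / ip Q Q) • Q + ∑ m ∈ range n, (ip (sc (M m) φ) h / ip φ φ) • sc (M m) φ)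
    with hk
  have hkC : CC k := hhC.sub ((hQC.smul _).add (hsum2 _))
  have expand : ∀ u : V → V, CC u → ip u k = ip u h - (ip Q h / ip Q Q * ip u Q
      + ∑ m ∈ range n, ip (sc (M m) φ) h / ip φ φ * ip u (sc (M m) φ)) := by
    intro u hu
    rw [hk, cip_sub hu.co hhC ((hQC.smul _).add (hsum2 _)), cip_add hu.co (hQC.smul _) (hsum2 _),
      ip_smul_right, cip_sum hu.co (fun m _ => (φT P S m).CC.smul _)]
    simp only [ip_smul_right]
  have hQφ : ∀ m, ip Q (sc (M m) φ) = 0 := fun m => ip_φP P S m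
  have orth : ∀ j, ip (Fam φ ψ ρ M ε j) k = 0 := by
    intro j
    cases j with
    | zero =>
      show ip Q k = 0
      rw [expand Q hQC]
      simp only [hQφ, mul_zero, sum_const_zero, add_zero]
      rw [div_mul_cancel₀ _ hQpos.ne', sub_self]
    | succ j =>
      show ip (sc (M j) φ) k = 0
      rw [expand _ (φT P S j).CC, ip_comm (sc (M j) φ) Q, hQφ, mul_zero, zero_add]
      have e1 : ∀ m ∈ range n, ip (sc (M m) φ) h / ip φ φ * ip (sc (M j) φ) (sc (M m) φ)
          = if j = m then ip (sc (M m) φ) h else 0 := by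
        intro m _
        rw [ip_φφ' P S]
        split_ifs
        · rw [div_mul_cancel₀ _ hFpos.ne']
        · rw [mul_zero]
      rw [sum_congr rfl e1, sum_ite_eq]
      split_ifs with hj
      · rw [sub_self]
      · rw [sub_zero]
        refine ip_disj fun x => ?_
        rcases lt_or_ge (3 / 4 * rad M n) ‖x‖ with hlt | hge
        · left
          refine φ_out P S j x ?_
          have : n ≤ j := by simpa using hj
          have := S.rad_anti this
          linarith
        · right
          simp only [hh]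
          rw [max_eq_right (by linarith), zero_smul]
  have h0 := hv.orth (fun j => (Fam_TF P S j).CC) hkC orth
  rw [expand v hv.1.CC] at h0
  have h1 : ip D h = 0 := by
    rw [ip_comm, hD, cip_sub hhC.co hv.1.CC ((hQC.smul _).add hsum),
      cip_add hhC.co (hQC.smul _) hsum, ip_smul_right,
      cip_sum hhC.co (fun m _ => (φT P S m).CC.smul _)]
    simp only [ip_smul_right]
    rw [ip_comm h v, ip_comm h Q]
    have e2 : cf ψ ρ M ε v * ip Q h = ip Q h / ip Q Q * ip v Q := by
      unfold cf; rw [← hQ]; ring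
    have e3 : ∀ m ∈ range n, af φ M v m * ip h (sc (M m) φ)
        = ip (sc (M m) φ) h / ip φ φ * ip v (sc (M m) φ) := by
      intro m _
      unfold af; rw [ip_comm h]; ring
    rw [e2, sum_congr rfl e3]
    exact h0
  -- conclude
  have h2 : D x = 0 := by
    by_contra hne
    have h3 : 0 < ip D h := by
      unfold ip
      have hc : HasCompactSupport fun x => ⟪D x, h x⟫ := by
        obtain ⟨R, hR⟩ := hDC.out
        exact HasCompactSupport.intro (isCompact_closedBall (0 : V) R) fun x hx => by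
          simp [hR x (by simpa using hx)]
      have := hDC.co
      have := hhC.co
      refine Continuous.integral_pos_of_hasCompactSupport_nonneg_nonzero (by fun_prop) hc
        (fun x => ?_) (x := x) ?_
      · simp only [hh, Pi.zero_apply]
        rw [inner_smul_right]
        exact mul_nonneg (le_max_right _ _) real_inner_self_nonneg
      · simp only [hh]
        rw [inner_smul_right, max_eq_left (by linarith)]
        exact mul_ne_zero (by linarith) (inner_self_ne_zero.mpr hne)
    exact h3.ne' h1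
  have h3 : v x - (cf ψ ρ M ε v • Q x + ∑ m ∈ range n, af φ M v m • sc (M m) φ x) = 0 := by
    rw [hD] at h2
    simpa using h2
  exact sub_eq_zero.mp h3

end

end Pool.Agent.H402V3
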