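import Mathlib
import Pool.Agent.H402V3.Unif
import Pool.Agent.H402V3.Coef

/-! Decay of the coefficients of solutions with bounded velocity. -/

open Set Finset Filter Topology

namespace Pool.Agent.H402V3

namespace Shell

variable {g μ slo shi κh : ℕ → ℝ} {R T : ℝ} {a e σ κ : ℕ → ℝ → ℝ}
  (S : Shell g μ slo shi κh R T a e σ κ)

include S

/-- the tail estimate when the strain is dominated by the viscosity -/
theorem tail4 {n : ℕ} (h0 : ∀ l, n < l → a l 0 = 0) {η : ℝ}
    (hη : ∀ K, ∑ l ∈ Ico (n + 1) (K + 1), (2 * R * shi l + 4 * κh l * w g R l) ≤ η)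
    (hη' : ∀ K, ∑ l ∈ Ico (n + 1) (K + 1), κh l ≤ η)
    (hWμ : ∀ t ∈ Icc 0 T, W g a (n + 1) t ≤ μ (n + 1)) (hμ : ∀ l, n + 1 ≤ l → μ (n + 1) ≤ μ l)
    {t : ℝ} (htT : t ∈ Icc 0 T) : e n t ≤ 2 * η := by
  have hη0 : 0 ≤ η := by simpa using hη' n
  obtain ⟨C, hCdef⟩ : ∃ C, C = w g R (n + 1) + 1 := ⟨_, rfl⟩
  have hC0 : 0 ≤ C := by have := S.w_nonneg (n + 1); linarith
  -- estimate for every ε
  have key : ∀ ε > 0, e n t ≤ (η + 4 * C * ε) + η + ε := by
    intro ε hε
    obtain ⟨n0, hn0⟩ := S.e_lim ε hε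
    obtain ⟨n1, hn1⟩ := S.W_lim ε hε
    set K := max n (max n0 n1) with hKdef
    have hnK : n ≤ K := le_max_left _ _
    have heK : ∀ t ∈ Icc 0 T, e K t ≤ ε :=
      hn0 K ((le_max_left _ _).trans (le_max_right _ _))
    have hWK : ∀ t ∈ Icc 0 T, e K t * |W g a (K + 1) t| ≤ ε :=
      hn1 K ((le_max_right _ _).trans (le_max_right _ _))
    have hF : ∀ t ∈ Icc 0 T, HasDerivWithinAt (fun t => ∑ l ∈ Ico (n + 1) (K + 1), a l t ^ 2)
        (∑ l ∈ Ico (n + 1) (K + 1), (2 * a l t ^ 1 *
          ((W g a l t - μ l) * a l t - g l * e l t + σ l t))) (Icc 0 T) t := by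
      intro t ht
      refine HasDerivWithinAt.fun_sum fun l _ => ?_
      have := (S.deriv l t ht).fun_pow 2
      simpa using this
    have hle : ∀ t ∈ Icc 0 T, (∑ l ∈ Ico (n + 1) (K + 1), (2 * a l t ^ 1 *
          ((W g a l t - μ l) * a l t - g l * e l t + σ l t))) ≤ η + 4 * C * ε := by
      intro t htT
      have hflux := S.flux hnK htT
      have h1 : (∑ l ∈ Ico (n + 1) (K + 1), (2 * a l t ^ 1 *
          ((W g a l t - μ l) * a l t - g l * e l t + σ l t)))
          = 2 * (∑ l ∈ Ico (n + 1) (K + 1), (W g a l t * a l t ^ 2 - g l * a l t * e l t))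
            + ∑ l ∈ Ico (n + 1) (K + 1), (2 * (σ l t * a l t - μ l * a l t ^ 2)) := by
        rw [mul_sum, ← sum_add_distrib]
        refine sum_congr rfl fun l _ => ?_
        ring
      rw [h1, hflux]
      have h2 : - (2 * (e K t * (W g a (K + 1) t - W g a (n + 1) t))) ≤ 4 * C * ε := by
        have h3 := hWK t htT
        have h4 := abs_le.mp (S.abs_W_le (n + 1) htT)
        have h5 := heK t htT
        have h6 := S.e_nonneg K t htT
        have h7 : -(e K t * W g a (K + 1) t) ≤ ε := by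
          have h8 : -(W g a (K + 1) t) ≤ |W g a (K + 1) t| := neg_le_abs _
          have h9 := mul_le_mul_of_nonneg_left h8 h6
          linarith
        have h10 : e K t * W g a (n + 1) t ≤ ε * w g R (n + 1) :=
          (mul_le_mul_of_nonneg_left h4.2 h6).trans
            (mul_le_mul_of_nonneg_right h5 (S.w_nonneg (n + 1)))
        have h11 := mul_nonneg hε.le (S.w_nonneg (n + 1))
        rw [hCdef]
        nlinarith
      have h3 : 2 * (W g a (n + 1) t * ∑ l ∈ Ico (n + 1) (K + 1), a l t ^ 2)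
          - (2 * ∑ l ∈ Ico (n + 1) (K + 1), κ l t * (W g a l t - W g a (n + 1) t))
          + ∑ l ∈ Ico (n + 1) (K + 1), (2 * (σ l t * a l t - μ l * a l t ^ 2)) ≤ η := by
        refine le_trans ?_ (hη K)
        rw [mul_sum, mul_sum, mul_sum, ← sum_sub_distrib, ← sum_add_distrib]
        refine sum_le_sum fun l hl => ?_
        have hl1 : n + 1 ≤ l := (Finset.mem_Ico.mp hl).1
        have h4 := abs_le.mp (S.abs_W_le l htT)
        have h5 := abs_le.mp (S.abs_W_le (n + 1) htT)
        have h6 := S.w_mono (hl1)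
        have h7 := S.κ_nonneg l t htT
        have h8 := S.κ_hi l t htT
        have h9 := S.w_nonneg l
        have h10 : - (2 * (κ l t * (W g a l t - W g a (n + 1) t))) ≤ 4 * κh l * w g R l := by
          have h11 : -(2 * w g R l) ≤ W g a l t - W g a (n + 1) t := by linarith
          have h12 : κ l t * w g R l ≤ κh l * w g R l := mul_le_mul_of_nonneg_right h8 h9
          nlinarith
        have h11 : 2 * (W g a (n + 1) t * a l t ^ 2) + 2 * (σ l t * a l t - μ l * a l t ^ 2)
            ≤ 2 * R * shi l := by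
          have h12 := abs_le.mp (S.a_bdd l t htT)
          have h13 : 0 ≤ σ l t := (S.slo_pos l).le.trans (S.σ_lo l t htT)
          have h14 := S.σ_hi l t htT
          have h15 : W g a (n + 1) t * a l t ^ 2 ≤ μ l * a l t ^ 2 :=
            mul_le_mul_of_nonneg_right ((hWμ t htT).trans (hμ l hl1)) (sq_nonneg _)
          have h16 : σ l t * a l t ≤ σ l t * R := mul_le_mul_of_nonneg_left h12.2 h13
          have h17 : σ l t * R ≤ shi l * R :=
            mul_le_mul_of_nonneg_right h14 (by linarith [S.R_ge])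
          linarith
        linarith
      linarith
    have hcmp := le_of_deriv_le (s := 0) (t := t) hF
      (fun t _ => hasDerivWithinAt_linear (η + 4 * C * ε) 0 (Icc 0 T) t) hle
      ⟨le_rfl, S.T_nonneg⟩ htT htT.1
    have h0' : ∑ l ∈ Ico (n + 1) (K + 1), a l 0 ^ 2 = 0 := by
      refine sum_eq_zero fun l hl => ?_
      rw [h0 l (by have := (Finset.mem_Ico.mp hl).1; omega)]
      norm_num
    rw [h0'] at hcmp
    have hg2 : ∑ l ∈ Ico (n + 1) (K + 1), a l t ^ 2 ≤ η + 4 * C * ε := by
      have h1 : (η + 4 * C * ε) * (t - 0) ≤ η + 4 * C * ε := by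
        refine mul_le_of_le_one_right (by positivity) ?_
        linarith [htT.2, S.T_le]
      linarith
    rw [S.tail_split hnK htT]
    have hk : ∑ l ∈ Ico (n + 1) (K + 1), κ l t ≤ η :=
      (sum_le_sum fun l _ => S.κ_hi l t htT).trans (hη' K)
    have := heK t htT
    linarith
  refine le_of_forall_pos_le_add fun δ hδ => ?_
  have hden : 0 < 4 * C + 1 := by positivity
  have h1 := key (δ / (4 * C + 1)) (by positivity)
  have h2 : (η + 4 * C * (δ / (4 * C + 1))) + η + δ / (4 * C + 1) = 2 * η + δ := by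
    field_simp
    ring
  linarith

end Shell
end Pool.Agent.H402V3
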